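import Mathlib
import Pool.Agent.R981.MazurDefs
import Pool.Agent.R981.MazurColor

set_option autoImplicit false

namespace Pool.Agent.Results.MP_c030b7_lc.TwoHamelFunctions

open Pool.Agent.R981.Mazur

/-- **There is a Mazurkiewicz set all of whose rotations are unions of two Hamel functions.** -/
theorem result : ∃ M : Set (ℝ × ℝ), IsMazurkiewicz M ∧
    ∀ θ : ℝ, ∃ f g : ℝ → ℝ, IsHamelFunction f ∧ IsHamelFunction g ∧
      rot θ '' M = graph f ∪ graph g :=
  exists_mazurkiewicz

end Pool.Agent.Results.MP_c030b7_lc.TwoHamelFunctions
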